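import Pool.Agent.V11293.GEO.Key

set_option autoImplicit false

namespace Pool.Agent.V11293.GEO.C14

open SimpleGraph Pool.Agent.V11293.GEO

/-- adjacency table -/
def adjm : ℕ := 10985508738681706068321496166655744916583284171133424714622

def A (x y : Fin 14) : Bool := adjm.testBit (14 * x.val + y.val)

theorem A_symm : ∀ x y : Fin 14, A x y = A y x := by decide +kernel

theorem A_irr : ∀ x : Fin 14, A x x = false := by decide +kernel

/-- The graph: a planar 3-tree on 14 vertices. -/
def G : SimpleGraph (Fin 14) where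
  Adj x y := A x y = true
  symm := ⟨fun x y h => by rw [A_symm]; exact h⟩
  loopless := ⟨fun x h => by rw [A_irr] at h; exact absurd h (by simp)⟩

instance : DecidableRel G.Adj := fun x y => inferInstanceAs (Decidable (A x y = true))

/-- the 24 faces -/
def F : Fin 24 → Fin 14 × Fin 14 × Fin 14 := ![(0, 1, 8), (0, 1, 5), (0, 2, 4), (0, 2, 6), (1, 2, 4), (1, 2, 7), (0, 3, 5), (0, 3, 6), (1, 3, 5), (1, 3, 7), (2, 3, 6), (2, 3, 7), (4, 8, 1), (4, 8, 11), (4, 9, 0), (4, 9, 12), (8, 9, 0), (8, 9, 13), (4, 10, 11), (4, 10, 12), (8, 10, 11), (8, 10, 13), (9, 10, 12), (9, 10, 13)]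

/-- the 10 separating triangles -/
def T : Fin 10 → Fin 14 × Fin 14 × Fin 14 := ![(0, 1, 2), (0, 1, 3), (0, 2, 3), (1, 2, 3), (0, 1, 4), (0, 4, 8), (4, 8, 9), (4, 8, 10), (4, 9, 10), (8, 9, 10)]

/-- side masks of the separating triangles -/
def M : Fin 10 → ℕ := ![16144, 32, 64, 128, 16128, 15872, 15360, 2048, 4096, 8192]

/-- edge sets: the set number `i` meets exactly the faces `0` and `i` in an odd number of edges -/
def Dm : Fin 24 → ℕ := ![0, 16386, 85075784027093150693544239948309201680, 19343993705459182253129834, 10384593717069655401176180738752512, 10384593717069655401176181275688960, 1180591620717411319842, 1180591625115457830954, 2361183241434823147522, 2361183250230916300802, 154743685502579124796932138, 2535301202817642616174276132866, 10384593717069655257060992662634496, 93461343453626915760293007639707648, 85075784027093150693472182354271273728, 1446205251710847004583864100228763222784, 5192296858534827628530496329220352, 21780735131228490028229411020250055442688, 365375409332819190894374835242405000511299256320,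 5986310706508824558214003921810774260516107812078336, 5846006549334338958124472284764122828113612636160, 1569275433846670212782217782895523940187921707295035097344, 191561942608586002643772130227379727414452749684704000, 3138550867693341100596917296914296409271784762743369761024]

def db (i : Fin 24) (x y : Fin 14) : Bool := (Dm i).testBit (14 * x.val + y.val)

theorem db_symm : ∀ i x y, db i x y = db i y x := by decide +kernel

def bz (b : Bool) : ZMod 2 := if b then 1 else 0

theorem par_check : ∀ i j : Fin 24,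
    bz (db i (F j).1 (F j).2.1) + bz (db i (F j).2.1 (F j).2.2) + bz (db i (F j).2.2 (F j).1) =
      (if i = j then 1 else 0) + (if j = 0 then 1 else 0) := by decide +kernel

def perm3 (t : Fin 14 × Fin 14 × Fin 14) (v x y : Fin 14) : Prop :=
  t = (v, x, y) ∨ t = (v, y, x) ∨ t = (x, v, y) ∨ t = (x, y, v) ∨ t = (y, v, x) ∨ t = (y, x, v)

instance (t : Fin 14 × Fin 14 × Fin 14) (v x y : Fin 14) : Decidable (perm3 t v x y) := by
  unfold perm3; infer_instance

theorem tri_check : ∀ v x y : Fin 14, x < v → y < v → G.Adj v x → G.Adj x y → G.Adj y v →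
    (∃ m : Fin 24, perm3 (F m) v x y) ∨ (∃ k : Fin 10, perm3 (T k) v x y) := by
  decide +kernel

theorem elim_check : ∀ v x y : Fin 14, x < v → y < v → x ≠ y → G.Adj v x → G.Adj v y →
    G.Adj x y := by
  decide +kernel

theorem face_adj : ∀ j : Fin 24, G.Adj (F j).1 (F j).2.1 ∧ G.Adj (F j).2.1 (F j).2.2 ∧
    G.Adj (F j).2.2 (F j).1 := by decide +kernel

def side (k : Fin 10) (v : Fin 14) : Bool := (M k).testBit v.val

theorem side_check : ∀ k : Fin 10, ∀ a b : Fin 14, G.Adj a b →
    (a ≠ (T k).1 ∧ a ≠ (T k).2.1 ∧ a ≠ (T k).2.2) →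
    (b ≠ (T k).1 ∧ b ≠ (T k).2.1 ∧ b ≠ (T k).2.2) → side k a = side k b := by
  decide +kernel

theorem side_ne : ∀ k : Fin 10, ∃ r s : Fin 14, (r ≠ (T k).1 ∧ r ≠ (T k).2.1 ∧ r ≠ (T k).2.2) ∧
    (s ≠ (T k).1 ∧ s ≠ (T k).2.1 ∧ s ≠ (T k).2.2) ∧ side k r ≠ side k s := by
  decide +kernel

/-- the three earlier neighbours of a late vertex -/
def par : Fin 14 → Fin 3 → Fin 14
  | 4 => ![0, 1, 2]
  | 5 => ![0, 1, 3]
  | 6 => ![0, 2, 3]
  | 7 => ![1, 2, 3]
  | 8 => ![4, 0, 1]
  | 9 => ![4, 8, 0]
  | 10 => ![4, 8, 9]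
  | 11 => ![4, 8, 10]
  | 12 => ![4, 9, 10]
  | 13 => ![8, 9, 10]
  | _ => ![0, 0, 0]

theorem par_check1 : ∀ v : Fin 14, 4 ≤ v → ∀ i : Fin 3, par v i < v ∧ G.Adj v (par v i) := by
  decide +kernel

theorem par_check2 : ∀ v : Fin 14, 4 ≤ v → ∀ i j : Fin 3, par v i = par v j → i = j := by
  decide +kernel

end Pool.Agent.V11293.GEO.C14
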