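import Pool.Agent.V11293.GEO.Concrete

set_option autoImplicit false

namespace Pool.Agent.V11293.GEO.C14

open SimpleGraph Pool.Agent.V11293.GEO

variable {l : Sym2 (Fin 14) → ℝ} {d : Fin 14 → Fin 14 → ℝ}

theorem sp (k : Fin 10) {x y c u v : Fin 14} (hk : perm3 (T k) x y c)
    (hne : side k u ≠ side k v) : SepPath G x y c u v := by
  refine SepPath.of_fun (side k) ?_ hne
  intro a b hab ha hb
  have h := side_check k a b hab
  unfold perm3 at hk
  rcases hk with h1 | h1 | h1 | h1 | h1 | h1 <;> rw [h1] at h <;> exact h (by tauto) (by tauto)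

theorem ss (k : Fin 10) {x y z : Fin 14} (hk : perm3 (T k) x y z) :
    SepSet G {v | v = x ∨ v = y ∨ v = z} := by
  refine ⟨side k, ?_, ?_⟩
  · intro a b hab ha hb
    have h := side_check k a b hab
    simp only [Set.mem_ofPred_eq, not_or] at ha hb
    unfold perm3 at hk
    rcases hk with h1 | h1 | h1 | h1 | h1 | h1 <;> rw [h1] at h <;> exact h (by tauto) (by tauto)
  · obtain ⟨r, s, hr, hs, hne⟩ := side_ne k
    refine ⟨r, s, ?_, ?_, hne⟩
    · simp only [Set.mem_ofPred_eq, not_or]
      unfold perm3 at hk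
      rcases hk with h1 | h1 | h1 | h1 | h1 | h1 <;> rw [h1] at hr <;> tauto
    · simp only [Set.mem_ofPred_eq, not_or]
      unfold perm3 at hk
      rcases hk with h1 | h1 | h1 | h1 | h1 | h1 <;> rw [h1] at hs <;> tauto

/-- the odd-parity functional of a pair of faces -/
def Dz (i j : Fin 24) : Sym2 (Fin 14) → ZMod 2 :=
  Sym2.lift ⟨fun x y => bz (db i x y) + bz (db j x y), fun x y => by
    beta_reduce
    rw [db_symm i x y, db_symm j x y]⟩

theorem Dz_mk (i j : Fin 24) (x y : Fin 14) : Dz i j s(x, y) = bz (db i x y) + bz (db j x y) := rfl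

theorem Dz_face (i j m : Fin 24) :
    Dz i j s((F m).1, (F m).2.1) + Dz i j s((F m).2.1, (F m).2.2) + Dz i j s((F m).2.2, (F m).1) =
      (if i = m then 1 else 0) + (if j = m then 1 else 0) := by
  rw [Dz_mk, Dz_mk, Dz_mk]
  have h1 := par_check i m
  have h2 := par_check j m
  have e : ∀ a b c a' b' c' : ZMod 2, (a + a') + (b + b') + (c + c') = (a + b + c) + (a' + b' + c') := by
    intros; ring
  rw [e, h1, h2]
  have e2 : ∀ a b c : ZMod 2, (a + c) + (b + c) = a + b := by decide
  exact e2 _ _ _

theorem gd_of_min {D : Sym2 (Fin 14) → ZMod 2} {u : Fin 14} {c : G.Walk u u} (hc : MinOdd l D c)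
    {x y z : Fin 14} (hxy : G.Adj x y) (hyz : G.Adj y z) (hzx : G.Adj z x)
    (hD : D s(x, y) + D s(y, z) + D s(z, x) = 1)
    (hw : wsum l c = l s(x, y) + l s(y, z) + l s(z, x)) : Gd G l x y z := by
  intro P
  rcases zmod2 (wsum D P + D s(x, y)) with h | h
  · left
    have h1 := hc.min x (P.append (Walk.cons hyz (Walk.cons hzx Walk.nil))) (by
      simp only [wsum_append, wsum_cons, wsum_nil, add_zero]
      have e : ∀ p a b c : ZMod 2, p + a = 0 → a + b + c = 1 → p + (b + c) = 1 := by decide
      exact e _ _ _ _ h hD)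
    simp only [wsum_append, wsum_cons, wsum_nil, add_zero] at h1
    linarith
  · right
    have h1 := hc.min x (P.append (Walk.cons hxy.symm Walk.nil)) (by
      simp only [wsum_append, wsum_cons, wsum_nil, add_zero]
      rw [Sym2.eq_swap]
      exact h)
    simp only [wsum_append, wsum_cons, wsum_nil, add_zero] at h1
    rw [Sym2.eq_swap (a := y) (b := x)] at h1
    rw [Sym2.eq_swap (a := x) (b := z), Sym2.eq_swap (a := z) (b := y)]
    linarith

/-- goodness of the face number `i` -/
def GF (l : Sym2 (Fin 14) → ℝ) (i : Fin 24) : Prop := Gd G l (F i).1 (F i).2.1 (F i).2.2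

theorem sum_perm {M : Type} [AddCommMonoid M] (f : Sym2 (Fin 14) → M)
    {t : Fin 14 × Fin 14 × Fin 14} {v x y : Fin 14} (h : perm3 t v x y) :
    f s(t.1, t.2.1) + f s(t.2.1, t.2.2) + f s(t.2.2, t.1) =
      f s(v, x) + (f s(x, y) + f s(y, v)) := by
  have e1 : f s(x, v) = f s(v, x) := by rw [Sym2.eq_swap]
  have e2 : f s(y, x) = f s(x, y) := by rw [Sym2.eq_swap]
  have e3 : f s(v, y) = f s(y, v) := by rw [Sym2.eq_swap]
  unfold perm3 at h
  rcases h with h | h | h | h | h | h <;> rw [h] <;> simp only [e1, e2, e3] <;> abel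

theorem good_or (hl : ∀ e, 0 < l e) (H : AllPer G l) (i j : Fin 24) (hij : i ≠ j) :
    GF l i ∨ GF l j := by
  obtain ⟨a1, a2, a3⟩ := face_adj i
  obtain ⟨u, c, hc⟩ := exists_minOdd (G := G) (D := Dz i j) hl
    ⟨(F i).1, Walk.cons a1 (Walk.cons a2 (Walk.cons a3 Walk.nil)), by
      simp only [wsum_cons, wsum_nil, add_zero]
      rw [← add_assoc, Dz_face, if_pos rfl, if_neg hij.symm, add_zero]⟩
  have hcyc := hc.isCycle hl
  have hg : IsGeodesicCycle l c := ⟨hcyc, fun x hx y hy p _ => hc.arc hl hx hy p⟩
  have hper := H u c hg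
  obtain ⟨v, x, y, h1, h2, h3, hv, hxv, hyv, hrot⟩ := per_triangle elim_check c hcyc hper.2.1
  have hw : wsum l c = l s(v, x) + (l s(x, y) + l s(y, v)) := by
    rw [← wsum_rotate l c hv, hrot]; simp
  have hD : Dz i j s(v, x) + (Dz i j s(x, y) + Dz i j s(y, v)) = 1 := by
    rw [← hc.odd, ← wsum_rotate (Dz i j) c hv, hrot]; simp
  rcases tri_check v x y hxv hyv h1 h2 h3 with ⟨m, hm⟩ | ⟨k, hk⟩
  · have hp := Dz_face i j m
    rw [sum_perm (Dz i j) hm, hD] at hp
    obtain ⟨b1, b2, b3⟩ := face_adj m
    have hgm : GF l m := by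
      apply gd_of_min hc b1 b2 b3
      · rw [sum_perm (Dz i j) hm, hD]
      · rw [hw, sum_perm l hm]
    by_cases him : i = m
    · left; rw [him]; exact hgm
    · by_cases hjm : j = m
      · right; rw [hjm]; exact hgm
      · rw [if_neg him, if_neg hjm] at hp
        exact absurd hp (by decide)
  · exfalso
    refine not_per_of_sep c {w | w = v ∨ w = x ∨ w = y} ?_ (ss k hk) hper
    intro w
    rw [← Walk.mem_support_rotate_iff c v hv, hrot]
    simp
    tauto

theorem fix3 {x y z : Fin 14} (h : ¬ Tight G l x y ∨ ¬ Tight G l y z ∨ ¬ Tight G l z x) :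
    ¬ Tight G l x y ∨ ¬ Tight G l y z ∨ ¬ Tight G l x z := by
  rcases h with h | h | h
  · exact Or.inl h
  · exact Or.inr (Or.inl h)
  · exact Or.inr (Or.inr (fun h' => h h'.symm))

theorem contraK (hd : IsDist G l d) (hl : ∀ e, 0 < l e) (H : AllPer G l)
    (hg : ∀ i : Fin 24, i.val < 12 → GF l i) : False := by
  refine k4_contra hd hl 0 1 2 3 7 6 5 4 (¬ Tight G l 0 1) (¬ Tight G l 0 2) (¬ Tight G l 0 3)
    (¬ Tight G l 1 2) (¬ Tight G l 1 3) (¬ Tight G l 2 3) ?_ ?_ ?_ ?_ ?_ ?_ ?_ ?_ ?_ ?_
  · exact fix3 (hit hl H (x := 0) (y := 1) (z := 2) (by decide) (by decide) (by decide) (ss 0 (by decide)))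
  · exact fix3 (hit hl H (x := 0) (y := 1) (z := 3) (by decide) (by decide) (by decide) (ss 1 (by decide)))
  · exact fix3 (hit hl H (x := 0) (y := 2) (z := 3) (by decide) (by decide) (by decide) (ss 2 (by decide)))
  · exact fix3 (hit hl H (x := 1) (y := 2) (z := 3) (by decide) (by decide) (by decide) (ss 3 (by decide)))
  · exact (key hd hl H (x := 0) (y := 1) (r := 8) (s := 5) (t1 := 4) (z := 2) (w := 3) (t2 := 5)
      (by decide) (by decide) (by decide) (by decide) (by decide) (by decide)
      (hg 0 (by decide)) (hg 1 (by decide))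
      (sp 4 (by decide) (by decide)) (sp 0 (by decide) (by decide))
      (sp 1 (by decide) (by decide)) (SepPath.right _ _ _ _))
  · exact (key hd hl H (x := 0) (y := 2) (r := 4) (s := 6) (t1 := 4) (z := 1) (w := 3) (t2 := 6)
      (by decide) (by decide) (by decide) (by decide) (by decide) (by decide)
      (hg 2 (by decide)) (hg 3 (by decide))
      (SepPath.left _ _ _ _) (sp 0 (by decide) (by decide))
      (sp 2 (by decide) (by decide)) (SepPath.right _ _ _ _))
  · exact (key hd hl H (x := 1) (y := 2) (r := 4) (s := 7) (t1 := 4) (z := 0) (w := 3) (t2 := 7)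
      (by decide) (by decide) (by decide) (by decide) (by decide) (by decide)
      (hg 4 (by decide)) (hg 5 (by decide))
      (SepPath.left _ _ _ _) (sp 0 (by decide) (by decide))
      (sp 3 (by decide) (by decide)) (SepPath.right _ _ _ _))
  · exact (key hd hl H (x := 0) (y := 3) (r := 5) (s := 6) (t1 := 5) (z := 1) (w := 2) (t2 := 6)
      (by decide) (by decide) (by decide) (by decide) (by decide) (by decide)
      (hg 6 (by decide)) (hg 7 (by decide))
      (SepPath.left _ _ _ _) (sp 1 (by decide) (by decide))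
      (sp 2 (by decide) (by decide)) (SepPath.right _ _ _ _))
  · exact (key hd hl H (x := 1) (y := 3) (r := 5) (s := 7) (t1 := 5) (z := 0) (w := 2) (t2 := 7)
      (by decide) (by decide) (by decide) (by decide) (by decide) (by decide)
      (hg 8 (by decide)) (hg 9 (by decide))
      (SepPath.left _ _ _ _) (sp 1 (by decide) (by decide))
      (sp 3 (by decide) (by decide)) (SepPath.right _ _ _ _))
  · exact (key hd hl H (x := 2) (y := 3) (r := 6) (s := 7) (t1 := 6) (z := 0) (w := 1) (t2 := 7)
      (by decide) (by decide) (by decide) (by decide) (by decide) (by decide)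
      (hg 10 (by decide)) (hg 11 (by decide))
      (SepPath.left _ _ _ _) (sp 2 (by decide) (by decide))
      (sp 3 (by decide) (by decide)) (SepPath.right _ _ _ _))

theorem contraK2 (hd : IsDist G l d) (hl : ∀ e, 0 < l e) (H : AllPer G l)
    (hg : ∀ i : Fin 24, 12 ≤ i.val → GF l i) : False := by
  refine k4_contra hd hl 4 8 9 10 13 12 11 0 (¬ Tight G l 4 8) (¬ Tight G l 4 9) (¬ Tight G l 4 10)
    (¬ Tight G l 8 9) (¬ Tight G l 8 10) (¬ Tight G l 9 10) ?_ ?_ ?_ ?_ ?_ ?_ ?_ ?_ ?_ ?_
  · exact fix3 (hit hl H (x := 4) (y := 8) (z := 9) (by decide) (by decide) (by decide) (ss 6 (by decide)))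
  · exact fix3 (hit hl H (x := 4) (y := 8) (z := 10) (by decide) (by decide) (by decide) (ss 7 (by decide)))
  · exact fix3 (hit hl H (x := 4) (y := 9) (z := 10) (by decide) (by decide) (by decide) (ss 8 (by decide)))
  · exact fix3 (hit hl H (x := 8) (y := 9) (z := 10) (by decide) (by decide) (by decide) (ss 9 (by decide)))
  · exact (key hd hl H (x := 4) (y := 8) (r := 1) (s := 11) (t1 := 0) (z := 9) (w := 10) (t2 := 11)
      (by decide) (by decide) (by decide) (by decide) (by decide) (by decide)
      (hg 12 (by decide)) (hg 13 (by decide))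
      (sp 5 (by decide) (by decide)) (sp 6 (by decide) (by decide))
      (sp 7 (by decide) (by decide)) (SepPath.right _ _ _ _))
  · exact (key hd hl H (x := 4) (y := 9) (r := 0) (s := 12) (t1 := 0) (z := 8) (w := 10) (t2 := 12)
      (by decide) (by decide) (by decide) (by decide) (by decide) (by decide)
      (hg 14 (by decide)) (hg 15 (by decide))
      (SepPath.left _ _ _ _) (sp 6 (by decide) (by decide))
      (sp 8 (by decide) (by decide)) (SepPath.right _ _ _ _))
  · exact (key hd hl H (x := 8) (y := 9) (r := 0) (s := 13) (t1 := 0) (z := 4) (w := 10) (t2 := 13)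
      (by decide) (by decide) (by decide) (by decide) (by decide) (by decide)
      (hg 16 (by decide)) (hg 17 (by decide))
      (SepPath.left _ _ _ _) (sp 6 (by decide) (by decide))
      (sp 9 (by decide) (by decide)) (SepPath.right _ _ _ _))
  · exact (key hd hl H (x := 4) (y := 10) (r := 11) (s := 12) (t1 := 11) (z := 8) (w := 9) (t2 := 12)
      (by decide) (by decide) (by decide) (by decide) (by decide) (by decide)
      (hg 18 (by decide)) (hg 19 (by decide))
      (SepPath.left _ _ _ _) (sp 7 (by decide) (by decide))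
      (sp 8 (by decide) (by decide)) (SepPath.right _ _ _ _))
  · exact (key hd hl H (x := 8) (y := 10) (r := 11) (s := 13) (t1 := 11) (z := 4) (w := 9) (t2 := 13)
      (by decide) (by decide) (by decide) (by decide) (by decide) (by decide)
      (hg 20 (by decide)) (hg 21 (by decide))
      (SepPath.left _ _ _ _) (sp 7 (by decide) (by decide))
      (sp 9 (by decide) (by decide)) (SepPath.right _ _ _ _))
  · exact (key hd hl H (x := 9) (y := 10) (r := 12) (s := 13) (t1 := 12) (z := 4) (w := 8) (t2 := 13)
      (by decide) (by decide) (by decide) (by decide) (by decide) (by decide)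
      (hg 22 (by decide)) (hg 23 (by decide))
      (SepPath.left _ _ _ _) (sp 8 (by decide) (by decide))
      (sp 9 (by decide) (by decide)) (SepPath.right _ _ _ _))

/-- For no length assignment all geodesic cycles of `G` are peripheral. -/
theorem not_allPer (hl : ∀ e, 0 < l e) (hG : G.Preconnected) : ¬ AllPer G l := by
  intro H
  obtain ⟨d, hd⟩ := exists_dist (l := l) hl hG
  by_cases h : ∀ i : Fin 24, i.val < 12 → GF l i
  · exact contraK hd hl H h
  · push Not at h
    obtain ⟨i, hi, hbad⟩ := h
    refine contraK2 hd hl H ?_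
    intro j hj
    have hij : i ≠ j := by
      rintro rfl
      omega
    exact (good_or hl H i j hij).resolve_left hbad

/-- the graph is 3-connected -/
theorem three_conn (S : Finset (Fin 14)) (hS : S.card ≤ 2) :
    (G.induce {v | v ∉ S}).Connected := by
  have base : ∀ v : Fin 14, ∀ hv : v ∉ S, ∃ b : Fin 14, ∃ hb : b ∉ S, b < 4 ∧
      (G.induce {v | v ∉ S}).Reachable ⟨v, hv⟩ ⟨b, hb⟩ := by
    intro v
    induction v using WellFoundedLT.induction with
    | _ v ih =>
      intro hv
      by_cases h4 : v < 4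
      · exact ⟨v, hv, h4, SimpleGraph.Reachable.refl _⟩
      · push Not at h4
        obtain ⟨i, hi⟩ : ∃ i : Fin 3, par v i ∉ S := by
          by_contra hcon
          push Not at hcon
          have h1 : (Finset.univ.image (par v)).card ≤ S.card := by
            apply Finset.card_le_card
            intro w hw
            obtain ⟨i, _, rfl⟩ := Finset.mem_image.mp hw
            exact hcon i
          rw [Finset.card_image_of_injective _ (fun i j h => par_check2 v h4 i j h)] at h1
          simp at h1
          omega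
        obtain ⟨hlt, hadj⟩ := par_check1 v h4 i
        obtain ⟨b, hb, hb4, hr⟩ := ih (par v i) hlt hi
        refine ⟨b, hb, hb4, SimpleGraph.Reachable.trans (SimpleGraph.Adj.reachable ?_) hr⟩
        exact hadj
  have clique : ∀ a b : Fin 14, a < 4 → b < 4 → a ≠ b → G.Adj a b := by decide +kernel
  have pre : (G.induce {v | v ∉ S}).Preconnected := by
    rintro ⟨x, hx⟩ ⟨y, hy⟩
    obtain ⟨a, ha, ha4, hr1⟩ := base x hx
    obtain ⟨b, hb, hb4, hr2⟩ := base y hy
    refine hr1.trans (SimpleGraph.Reachable.trans ?_ hr2.symm)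
    by_cases hab : a = b
    · subst hab; exact SimpleGraph.Reachable.refl _
    · apply SimpleGraph.Adj.reachable
      exact clique a b ha4 hb4 hab
  obtain ⟨v, hv⟩ : ∃ v : Fin 14, v ∉ S := by
    by_contra hcon
    push Not at hcon
    have : S = Finset.univ := by ext v; simp [hcon v]
    rw [this] at hS
    simp at hS
  exact (SimpleGraph.connected_iff _).mpr ⟨pre, ⟨⟨v, hv⟩⟩⟩

end Pool.Agent.V11293.GEO.C14
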