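import Pool.Agent.V11293.GEO.Tri

set_option autoImplicit false

namespace Pool.Agent.V11293.GEO

open SimpleGraph

variable {V : Type} {G : SimpleGraph V} {l : Sym2 V → ℝ} {d : V → V → ℝ}

/-- `d` is the distance of the weighted graph -/
structure IsDist (G : SimpleGraph V) (l : Sym2 V → ℝ) (d : V → V → ℝ) : Prop where
  le : ∀ x y (P : G.Walk x y), d x y ≤ wsum l P
  ex : ∀ x y, ∃ P : G.Walk x y, wsum l P = d x y

theorem exists_dist [Fintype V] [DecidableEq V] (hl : ∀ e, 0 < l e) (hG : G.Preconnected) :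
    ∃ d, IsDist G l d := by
  have h : ∀ x y : V, ∃ P : G.Walk x y, ∀ Q : G.Walk x y, wsum l P ≤ wsum l Q := by
    intro x y
    obtain ⟨P0⟩ := hG x y
    obtain ⟨a, b, p, ⟨rfl, rfl⟩, hmin⟩ := exists_min_walk (G := G) hl
      (fun u v _ => u = x ∧ v = y) ⟨x, y, P0, rfl, rfl⟩
    exact ⟨p, fun Q => hmin _ _ Q ⟨rfl, rfl⟩⟩
  choose P hP using h
  exact ⟨fun x y => wsum l (P x y), fun x y Q => hP x y Q, fun x y => ⟨P x y, rfl⟩⟩

theorem IsDist.symm (hd : IsDist G l d) (x y : V) : d x y = d y x := by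
  apply le_antisymm
  · obtain ⟨P, hP⟩ := hd.ex y x
    have := hd.le x y P.reverse
    rw [wsum_reverse] at this
    linarith
  · obtain ⟨P, hP⟩ := hd.ex x y
    have := hd.le y x P.reverse
    rw [wsum_reverse] at this
    linarith

theorem IsDist.tri (hd : IsDist G l d) (x y z : V) : d x z ≤ d x y + d y z := by
  obtain ⟨P, hP⟩ := hd.ex x y
  obtain ⟨Q, hQ⟩ := hd.ex y z
  have := hd.le x z (P.append Q)
  rw [wsum_append] at this
  linarith

theorem IsDist.nonneg (hd : IsDist G l d) (hl : ∀ e, 0 < l e) (x y : V) : 0 ≤ d x y := by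
  obtain ⟨P, hP⟩ := hd.ex x y
  rw [← hP]
  exact len_nonneg hl P

/-- goodness of the triangle `xyz` at the pair `xy` -/
def Gd (G : SimpleGraph V) (l : Sym2 V → ℝ) (x y z : V) : Prop :=
  ∀ P : G.Walk x y, l s(x, y) ≤ wsum l P ∨ l s(x, z) + l s(z, y) ≤ wsum l P

theorem Gd.symm {x y z : V} (h : Gd G l x y z) : Gd G l y x z := by
  intro P
  have := h P.reverse
  rw [wsum_reverse] at this
  rcases this with h | h
  · left; rwa [Sym2.eq_swap]
  · right
    rw [Sym2.eq_swap (a := y) (b := z), Sym2.eq_swap (a := z) (b := x)]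
    linarith

theorem Gd.all {x y z : V} (h : Gd G l x y z) (hN : ¬ Tight G l x y) (P : G.Walk x y) :
    l s(x, z) + l s(z, y) ≤ wsum l P := by
  unfold Tight at hN
  push Not at hN
  obtain ⟨Q, hQ⟩ := hN
  rcases h P with h1 | h1
  · rcases h Q with h2 | h2
    · linarith
    · linarith
  · exact h1

/-- every walk from `u` to `v` avoiding `x` and `y` contains `c` -/
def SepPath (G : SimpleGraph V) (x y c u v : V) : Prop :=
  ∀ P : G.Walk u v, x ∉ P.support → y ∉ P.support → c ∈ P.support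

theorem SepPath.of_fun {x y c u v : V} (f : V → Bool)
    (hf : ∀ a b, G.Adj a b → (a ≠ x ∧ a ≠ y ∧ a ≠ c) → (b ≠ x ∧ b ≠ y ∧ b ≠ c) → f a = f b)
    (hne : f u ≠ f v) : SepPath G x y c u v := by
  intro P hx hy
  by_contra hc
  apply hne
  clear hne
  induction P with
  | nil => rfl
  | @cons a b e h P ih =>
    rw [Walk.support_cons, List.mem_cons] at hx hy hc
    push Not at hx hy hc
    rw [← ih hx.2 hy.2 hc.2]
    apply hf a b h ⟨hx.1.symm, hy.1.symm, hc.1.symm⟩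
    refine ⟨?_, ?_, ?_⟩
    · rintro rfl; exact hx.2 (Walk.start_mem_support _)
    · rintro rfl; exact hy.2 (Walk.start_mem_support _)
    · rintro rfl; exact hc.2 (Walk.start_mem_support _)

theorem SepPath.left (x y u v : V) : SepPath G x y u u v := fun P _ _ => P.start_mem_support

theorem SepPath.right (x y u v : V) : SepPath G x y v u v := fun P _ _ => P.end_mem_support

theorem step [DecidableEq V] (hd : IsDist G l d) {x y c u v : V}
    (hS : SepPath G x y c u v) (P : G.Walk u v) (hx : x ∉ P.support) (hy : y ∉ P.support) :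
    ∃ Q : G.Walk c v, x ∉ Q.support ∧ y ∉ Q.support ∧ d u c + wsum l Q ≤ wsum l P := by
  have hc := hS P hx hy
  refine ⟨P.dropUntil c hc, fun h => hx (Walk.support_dropUntil_subset_support _ hc h),
    fun h => hy (Walk.support_dropUntil_subset_support _ hc h), ?_⟩
  rw [← wsum_take_drop l P hc]
  have := hd.le u c (P.takeUntil c hc)
  linarith

theorem key [DecidableEq V] (hd : IsDist G l d) (hl : ∀ e, 0 < l e) (H : AllPer G l)
    {x y r s t1 z w t2 : V}
    (hxr : G.Adj x r) (hry : G.Adj r y) (hys : G.Adj y s) (hsx : G.Adj s x) (hxy : G.Adj x y)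
    (hrs : r ≠ s) (g1 : Gd G l x y r) (g2 : Gd G l x y s) (S1 : SepPath G x y t1 r s)
    (S2 : SepPath G x y z t1 s) (S3 : SepPath G x y w z s) (S4 : SepPath G x y t2 w s)
    (hN : ¬ Tight G l x y) :
    d t1 z + d z w + d w t2 < d x y := by
  have h1 := g1.all hN
  have h2 := g2.all hN
  obtain ⟨P, hP1, hP2⟩ := quad hl H hxr hry hys hsx hxy hrs h1 h2
  obtain ⟨Q, hQ⟩ := hd.ex x y
  have b1 := h1 Q
  have b2 := h2 Q
  have hPd : wsum l P < d x y := by
    rw [Sym2.eq_swap (a := r) (b := x)] at hP1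
    rw [Sym2.eq_swap (a := y) (b := s)] at hP2
    linarith
  have hxP : x ∉ P.support := by
    intro hx
    have e := wsum_take_drop l P hx
    have c1 := h1 ((P.takeUntil x hx).reverse.append (Walk.cons hry Walk.nil))
    have c2 := h2 ((P.dropUntil x hx).append (Walk.cons hys.symm Walk.nil))
    simp only [wsum_append, wsum_reverse, wsum_cons, wsum_nil] at c1 c2
    rw [Sym2.eq_swap (a := r) (b := x)] at hP1
    linarith
  have hyP : y ∉ P.support := by
    intro hy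
    have e := wsum_take_drop l P hy
    have c1 := h1 (Walk.cons hxr (P.takeUntil y hy))
    have c2 := h2 (Walk.cons hsx.symm (P.dropUntil y hy).reverse)
    simp only [wsum_reverse, wsum_cons] at c1 c2
    rw [Sym2.eq_swap (a := y) (b := s)] at hP2
    linarith
  obtain ⟨P1, a1, a2, a3⟩ := step hd S1 P hxP hyP
  obtain ⟨P2, b1, b2, b3⟩ := step hd S2 P1 a1 a2
  obtain ⟨P3, c1, c2, c3⟩ := step hd S3 P2 b1 b2
  obtain ⟨P4, d1, d2, d3⟩ := step hd S4 P3 c1 c2
  have n1 := hd.nonneg hl r t1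
  have n2 := len_nonneg hl P4
  linarith

/-- The final contradiction for a `K4`. -/
theorem k4_contra (hd : IsDist G l d) (hl : ∀ e, 0 < l e) (k0 k1 k2 k3 t0 t1 t2 t3 : V)
    (N01 N02 N03 N12 N13 N23 : Prop)
    (h012 : N01 ∨ N12 ∨ N02) (h013 : N01 ∨ N13 ∨ N03) (h023 : N02 ∨ N23 ∨ N03)
    (h123 : N12 ∨ N23 ∨ N13)
    (e01 : N01 → d t3 k2 + d k2 k3 + d k3 t2 < d k0 k1)
    (e02 : N02 → d t3 k1 + d k1 k3 + d k3 t1 < d k0 k2)
    (e12 : N12 → d t3 k0 + d k0 k3 + d k3 t0 < d k1 k2)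
    (e03 : N03 → d t2 k1 + d k1 k2 + d k2 t1 < d k0 k3)
    (e13 : N13 → d t2 k0 + d k0 k2 + d k2 t0 < d k1 k3)
    (e23 : N23 → d t1 k0 + d k0 k1 + d k1 t0 < d k2 k3) : False := by
  have nn := hd.nonneg hl
  have x1 : ¬ (N01 ∧ N23) := by
    rintro ⟨a, b⟩
    have := e01 a
    have := e23 b
    linarith [nn t3 k2, nn k3 t2, nn t1 k0, nn k1 t0]
  have x2 : ¬ (N02 ∧ N13) := by
    rintro ⟨a, b⟩
    have := e02 a
    have := e13 b
    linarith [nn t3 k1, nn k3 t1, nn t2 k0, nn k2 t0]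
  have x3 : ¬ (N12 ∧ N03) := by
    rintro ⟨a, b⟩
    have := e12 a
    have := e03 b
    linarith [nn t3 k0, nn k3 t0, nn t2 k1, nn k2 t1]
  have T : (N01 ∧ N02 ∧ N12) ∨ (N01 ∧ N03 ∧ N13) ∨ (N02 ∧ N23 ∧ N03) ∨ (N12 ∧ N23 ∧ N13) := by
    tauto
  rcases T with ⟨a, b, c⟩ | ⟨a, b, c⟩ | ⟨a, b, c⟩ | ⟨a, b, c⟩
  · have f1 := e01 a
    have f2 := e02 b
    have f3 := e12 c
    linarith [hd.tri k0 t3 k1, hd.tri k0 t3 k2, hd.tri k1 t3 k2, hd.tri k0 k3 k1, hd.tri k0 k3 k2,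
      hd.tri k1 k3 k2, hd.symm k0 t3, hd.symm k1 t3, hd.symm k2 t3, hd.symm k0 k3, hd.symm k1 k3,
      hd.symm k2 k3, nn k3 t2, nn k3 t1, nn k3 t0]
  · have f1 := e01 a
    have f2 := e03 b
    have f3 := e13 c
    linarith [hd.tri k0 t2 k1, hd.tri k0 t2 k3, hd.tri k1 t2 k3, hd.tri k0 k2 k1, hd.tri k0 k2 k3,
      hd.tri k1 k2 k3, hd.symm k0 t2, hd.symm k1 t2, hd.symm k3 t2, hd.symm k0 k2, hd.symm k1 k2,
      hd.symm k3 k2, nn t3 k2, nn k2 t1, nn k2 t0]
  · have f1 := e02 a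
    have f2 := e23 b
    have f3 := e03 c
    linarith [hd.tri k0 t1 k2, hd.tri k0 t1 k3, hd.tri k2 t1 k3, hd.tri k0 k1 k2, hd.tri k0 k1 k3,
      hd.tri k2 k1 k3, hd.symm k0 t1, hd.symm k2 t1, hd.symm k3 t1, hd.symm k0 k1, hd.symm k2 k1,
      hd.symm k3 k1, nn t3 k1, nn k1 t0, nn t2 k1]
  · have f1 := e12 a
    have f2 := e23 b
    have f3 := e13 c
    linarith [hd.tri k1 t0 k2, hd.tri k1 t0 k3, hd.tri k2 t0 k3, hd.tri k1 k0 k2, hd.tri k1 k0 k3,
      hd.tri k2 k0 k3, hd.symm k1 t0, hd.symm k2 t0, hd.symm k3 t0, hd.symm k1 k0, hd.symm k2 k0,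
      hd.symm k3 k0, nn t3 k0, nn t1 k0, nn t2 k0]

end Pool.Agent.V11293.GEO
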