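import Pool.Agent.V11293.GEO.Walks

set_option autoImplicit false

namespace Pool.Agent.V11293.GEO

open SimpleGraph

variable {V : Type} {G : SimpleGraph V} {l : Sym2 V → ℝ} {D : Sym2 V → ZMod 2}

theorem zmod2 (x : ZMod 2) : x = 0 ∨ x = 1 := by
  revert x; decide

/-- a shortest closed walk using the edges of `D` an odd number of times -/
structure MinOdd (l : Sym2 V → ℝ) (D : Sym2 V → ZMod 2) {u : V} (c : G.Walk u u) : Prop where
  odd : wsum D c = 1
  min : ∀ (v : V) (q : G.Walk v v), wsum D q = 1 → wsum l c ≤ wsum l q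

theorem exists_minOdd [Fintype V] [DecidableEq V] (hl : ∀ e, 0 < l e)
    (h : ∃ v, ∃ q : G.Walk v v, wsum D q = 1) :
    ∃ u, ∃ c : G.Walk u u, MinOdd l D c := by
  obtain ⟨v, q, hq⟩ := h
  obtain ⟨a, b, p, ⟨hab, hp⟩, hmin⟩ := exists_min_walk (G := G) hl
    (fun u v p => u = v ∧ wsum D p = 1) ⟨v, v, q, rfl, hq⟩
  subst hab
  exact ⟨a, p, hp, fun v q hq => hmin v v q ⟨rfl, hq⟩⟩

theorem MinOdd.isCycle [DecidableEq V] (hl : ∀ e, 0 < l e) {u : V} {c : G.Walk u u}
    (hc : MinOdd l D c) : c.IsCycle := by
  cases c with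
  | nil => exact absurd hc.odd (by simp)
  | @cons _ v _ h p =>
    have hp : p.IsPath := by
      by_contra hnp
      obtain ⟨x, p1, q, p2, h1, h2⟩ := split_of_not_path p hnp
      have e1 := hc.odd
      rw [h1] at e1
      simp only [wsum_cons, wsum_append] at e1
      have m1 := hc.min
      rw [h1] at m1
      simp only [wsum_cons, wsum_append] at m1
      rcases zmod2 (wsum D q) with h3 | h3
      · have h4 := m1 u (Walk.cons h (p1.append p2)) (by
          simp only [wsum_cons, wsum_append]
          rw [← e1, h3]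
          ring)
        simp only [wsum_cons, wsum_append] at h4
        have := len_pos hl q h2
        linarith
      · have h4 := m1 x q h3
        have := len_nonneg hl p1
        have := len_nonneg hl p2
        have := hl s(u, v)
        linarith
    rw [Walk.cons_isCycle_iff]
    refine ⟨hp, fun he => ?_⟩
    obtain ⟨h', rfl⟩ := cons_path h p hp he
    have e1 := hc.odd
    rw [wsum_cons, wsum_cons, wsum_nil, add_zero, Sym2.eq_swap] at e1
    rcases zmod2 (D s(v, u)) with h3 | h3 <;> rw [h3] at e1 <;> exact absurd e1 (by decide)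

theorem MinOdd.arc [DecidableEq V] (hl : ∀ e, 0 < l e) {u : V} {c : G.Walk u u}
    (hc : MinOdd l D c) {x y : V} (hx : x ∈ c.support) (hy : y ∈ c.support) (P : G.Walk x y) :
    ∃ q : G.Walk x y, q.IsPath ∧ (∀ e ∈ q.edges, e ∈ c.edges) ∧ wsum l q ≤ wsum l P := by
  set c' := c.rotate x hx with hc'
  have hy' : y ∈ c'.support := by rw [hc', Walk.mem_support_rotate_iff]; exact hy
  have hed : ∀ e, e ∈ c'.edges → e ∈ c.edges := fun e he =>
    (Walk.rotate_edges c x hx).mem_iff.mp he
  have hw1 : wsum l c' = wsum l c := wsum_rotate l c hx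
  have hw2 : wsum D c' = wsum D c := wsum_rotate D c hx
  have s1 := wsum_take_drop l c' hy'
  have s2 := wsum_take_drop D c' hy'
  by_cases h1 : wsum l (c'.takeUntil y hy') ≤ wsum l P
  · obtain ⟨q, q1, q2, q3⟩ := exists_path hl (c'.takeUntil y hy')
    exact ⟨q, q1, fun e he => hed e (Walk.edges_takeUntil_subset_edges _ hy' (q2 e he)),
      q3.trans h1⟩
  by_cases h2 : wsum l (c'.dropUntil y hy') ≤ wsum l P
  · obtain ⟨q, q1, q2, q3⟩ := exists_path hl (c'.dropUntil y hy').reverse
    refine ⟨q, q1, fun e he => hed e (Walk.edges_dropUntil_subset_edges _ hy' ?_),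
      q3.trans ?_⟩
    · have := q2 e he
      rwa [Walk.edges_reverse, List.mem_reverse] at this
    · rw [wsum_reverse]; exact h2
  exfalso
  push Not at h1 h2
  have m1 := hc.min x (P.append (c'.takeUntil y hy').reverse)
  have m2 := hc.min x (P.append (c'.dropUntil y hy'))
  simp only [wsum_append, wsum_reverse] at m1 m2
  have hodd := hc.odd
  rw [← hw2, ← s2] at hodd
  rcases zmod2 (wsum D P + wsum D (c'.takeUntil y hy')) with h3 | h3
  · have h4 : wsum D P + wsum D (c'.dropUntil y hy') = 1 := by
      have : wsum D P + wsum D (c'.dropUntil y hy') =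
          (wsum D P + wsum D (c'.takeUntil y hy')) +
          (wsum D (c'.takeUntil y hy') + wsum D (c'.dropUntil y hy')) -
            2 * wsum D (c'.takeUntil y hy') := by ring
      rw [this, h3, hodd]
      rw [show (2 : ZMod 2) = 0 by decide]
      ring
    have := m2 h4
    linarith
  · have := m1 h3
    linarith

end Pool.Agent.V11293.GEO
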