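import Pool.Agent.V11293.GEO.Odd

set_option autoImplicit false

namespace Pool.Agent.V11293.GEO

open SimpleGraph

/-- A cycle `c` is geodesic with respect to the length assignment `l` if for any two of its vertices
`x, y` and any `x`-`y` path `p` of the graph there is an `x`-`y` path contained in `c` which is not
longer than `p`. -/
def IsGeodesicCycle {V : Type} {G : SimpleGraph V} (l : Sym2 V → ℝ) {u : V} (c : G.Walk u u) :
    Prop :=
  c.IsCycle ∧ ∀ x ∈ c.support, ∀ y ∈ c.support, ∀ p : G.Walk x y, p.IsPath →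
    ∃ q : G.Walk x y, q.IsPath ∧ (∀ e ∈ q.edges, e ∈ c.edges) ∧
      (q.edges.map l).sum ≤ (p.edges.map l).sum

/-- A cycle is peripheral if it is induced and its complement is connected. -/
def IsPeripheral {V : Type} {G : SimpleGraph V} {u : V} (c : G.Walk u u) : Prop :=
  c.IsCycle ∧ (∀ x ∈ c.support, ∀ y ∈ c.support, G.Adj x y → s(x, y) ∈ c.edges) ∧
    (G.induce {v | v ∉ c.support}).Preconnected

variable {V : Type} {G : SimpleGraph V} {l : Sym2 V → ℝ}

/-- every geodesic cycle is peripheral -/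
def AllPer (G : SimpleGraph V) (l : Sym2 V → ℝ) : Prop :=
  ∀ (u : V) (c : G.Walk u u), IsGeodesicCycle l c → IsPeripheral c

/-- the edge `xy` is a shortest walk between its endpoints -/
def Tight (G : SimpleGraph V) (l : Sym2 V → ℝ) (x y : V) : Prop :=
  ∀ P : G.Walk x y, l s(x, y) ≤ wsum l P

theorem Tight.symm {x y : V} (h : Tight G l x y) : Tight G l y x := by
  intro P
  have := h P.reverse
  rwa [wsum_reverse, Sym2.eq_swap] at this

/-- arcs property of a closed walk for a pair of vertices -/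
def Arc (l : Sym2 V → ℝ) {u : V} (c : G.Walk u u) (x y : V) : Prop :=
  ∀ P : G.Walk x y, ∃ q : G.Walk x y, q.IsPath ∧ (∀ e ∈ q.edges, e ∈ c.edges) ∧
      wsum l q ≤ wsum l P

theorem Arc.refl (hl : ∀ e, 0 < l e) {u : V} (c : G.Walk u u) (x : V) : Arc l c x x :=
  fun P => ⟨Walk.nil, Walk.IsPath.nil, by simp, by rw [wsum_nil]; exact len_nonneg hl P⟩

theorem Arc.symm {u : V} {c : G.Walk u u} {x y : V} (h : Arc l c x y) : Arc l c y x := by
  intro P
  obtain ⟨q, h1, h2, h3⟩ := h P.reverse
  refine ⟨q.reverse, h1.reverse, ?_, ?_⟩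
  · intro e he
    rw [Walk.edges_reverse, List.mem_reverse] at he
    exact h2 e he
  · rw [wsum_reverse] at h3 ⊢
    exact h3

theorem Arc.edge {u : V} {c : G.Walk u u} {x y : V} (hxy : G.Adj x y) (he : s(x, y) ∈ c.edges)
    (h : Tight G l x y) : Arc l c x y := by
  intro P
  refine ⟨Walk.cons hxy Walk.nil, ?_, ?_, ?_⟩
  · simp [hxy.ne]
  · intro e h1
    rw [Walk.edges_cons, Walk.edges_nil, List.mem_singleton] at h1
    rw [h1]; exact he
  · rw [wsum_cons, wsum_nil, add_zero]
    exact h P

theorem Arc.two {u : V} {c : G.Walk u u} {x z y : V} (hxz : G.Adj x z) (hzy : G.Adj z y)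
    (hxy : x ≠ y) (h1 : s(x, z) ∈ c.edges) (h2 : s(z, y) ∈ c.edges) (P : G.Walk x y)
    (h : l s(x, z) + l s(z, y) ≤ wsum l P) :
    ∃ q : G.Walk x y, q.IsPath ∧ (∀ e ∈ q.edges, e ∈ c.edges) ∧ wsum l q ≤ wsum l P := by
  refine ⟨Walk.cons hxz (Walk.cons hzy Walk.nil), ?_, ?_, ?_⟩
  · simp [hxz.ne, hzy.ne, hxy]
  · intro e h3
    rw [Walk.edges_cons, Walk.edges_cons, Walk.edges_nil, List.mem_cons, List.mem_singleton] at h3
    rcases h3 with rfl | rfl
    · exact h1
    · exact h2
  · rw [wsum_cons, wsum_cons, wsum_nil, add_zero]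
    exact h

theorem geodesic_of_arcs {u : V} {c : G.Walk u u} (hc : c.IsCycle)
    (h : ∀ x ∈ c.support, ∀ y ∈ c.support, Arc l c x y) : IsGeodesicCycle l c :=
  ⟨hc, fun x hx y hy p _ => h x hx y hy p⟩

/-- a separating set: a two-valued function, constant along the edges outside `S`, with two
different values outside `S` -/
def SepSet (G : SimpleGraph V) (S : Set V) : Prop :=
  ∃ f : V → Bool, (∀ u w, G.Adj u w → u ∉ S → w ∉ S → f u = f w) ∧
    ∃ r s, r ∉ S ∧ s ∉ S ∧ f r ≠ f s

theorem not_per_of_sep {u : V} (c : G.Walk u u) (S : Set V) (hS : ∀ v, v ∈ c.support ↔ v ∈ S)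
    (h : SepSet G S) : ¬ IsPeripheral c := by
  rintro ⟨_, _, hp⟩
  obtain ⟨f, hf, r, s, hr, hs, hne⟩ := h
  have hr' : r ∈ {v | v ∉ c.support} := fun h => hr ((hS r).mp h)
  have hs' : s ∈ {v | v ∉ c.support} := fun h => hs ((hS s).mp h)
  obtain ⟨w⟩ := hp ⟨r, hr'⟩ ⟨s, hs'⟩
  have key : ∀ (a b : {v | v ∉ c.support}) (w : (G.induce {v | v ∉ c.support}).Walk a b),
      f a = f b := by
    intro a b w
    induction w with
    | nil => rfl
    | @cons a b _ h _ ih =>
      rw [← ih]
      apply hf a b h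
      · exact fun h => a.2 ((hS _).mpr h)
      · exact fun h => b.2 ((hS _).mpr h)
  exact hne (key _ _ w)

/-- a separating triangle contains an edge that is not tight -/
theorem hit (hl : ∀ e, 0 < l e) (H : AllPer G l) {x y z : V} (hxy : G.Adj x y) (hyz : G.Adj y z)
    (hzx : G.Adj z x) (hsep : SepSet G {v | v = x ∨ v = y ∨ v = z}) :
    ¬ Tight G l x y ∨ ¬ Tight G l y z ∨ ¬ Tight G l z x := by
  by_contra hcon
  push Not at hcon
  obtain ⟨t1, t2, t3⟩ := hcon
  set c : G.Walk x x := Walk.cons hxy (Walk.cons hyz (Walk.cons hzx Walk.nil)) with hc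
  have hcyc : c.IsCycle := by
    rw [hc, Walk.cons_isCycle_iff]
    constructor
    · simp [hyz.ne, hzx.ne, hxy.ne.symm]
    · simp [hxy.ne, hyz.ne, hzx.ne, hzx.ne.symm, hyz.ne.symm]
  have hsupp : ∀ v, v ∈ c.support ↔ v ∈ {v | v = x ∨ v = y ∨ v = z} := by
    intro v
    rw [hc]
    simp
    tauto
  have e1 : s(x, y) ∈ c.edges := by rw [hc]; simp
  have e2 : s(y, z) ∈ c.edges := by rw [hc]; simp
  have e3 : s(z, x) ∈ c.edges := by rw [hc]; simp
  have a1 : Arc l c x y := Arc.edge hxy e1 t1
  have a2 : Arc l c y z := Arc.edge hyz e2 t2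
  have a3 : Arc l c z x := Arc.edge hzx e3 t3
  have hg : IsGeodesicCycle l c := by
    apply geodesic_of_arcs hcyc
    intro a ha b hb
    rcases (hsupp a).mp ha with rfl | rfl | rfl <;> rcases (hsupp b).mp hb with rfl | rfl | rfl <;>
    first
    | exact Arc.refl hl c _
    | exact a1
    | exact a2
    | exact a3
    | exact a1.symm
    | exact a2.symm
    | exact a3.symm
  exact not_per_of_sep c _ hsupp hsep (H x c hg)

/-- The 4-cycle argument. -/
theorem quad (hl : ∀ e, 0 < l e) (H : AllPer G l) {x y r s : V} (hxr : G.Adj x r) (hry : G.Adj r y)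
    (hys : G.Adj y s) (hsx : G.Adj s x) (hxy : G.Adj x y) (hrs : r ≠ s)
    (h1 : ∀ P : G.Walk x y, l s(x, r) + l s(r, y) ≤ wsum l P)
    (h2 : ∀ P : G.Walk x y, l s(x, s) + l s(s, y) ≤ wsum l P) :
    ∃ P : G.Walk r s, wsum l P < l s(r, x) + l s(x, s) ∧ wsum l P < l s(r, y) + l s(y, s) := by
  by_contra hcon
  push Not at hcon
  set c : G.Walk x x := Walk.cons hxr (Walk.cons hry (Walk.cons hys (Walk.cons hsx Walk.nil)))
    with hc
  have hcyc : c.IsCycle := by
    rw [hc, Walk.cons_isCycle_iff]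
    constructor
    · simp [hry.ne, hys.ne, hsx.ne, hxr.ne.symm, hrs, hxy.ne.symm]
    · simp [hxr.ne, hry.ne, hys.ne, hsx.ne, hxy.ne, hrs, hxr.ne.symm, hsx.ne.symm]
  have hsupp : ∀ v, v ∈ c.support ↔ v = x ∨ v = r ∨ v = y ∨ v = s := by
    intro v
    rw [hc]
    simp
    tauto
  have e1 : s(x, r) ∈ c.edges := by rw [hc]; simp
  have e2 : s(r, y) ∈ c.edges := by rw [hc]; simp
  have e3 : s(y, s) ∈ c.edges := by rw [hc]; simp
  have e4 : s(s, x) ∈ c.edges := by rw [hc]; simp
  have t1 : Tight G l x r := by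
    intro P
    have := h1 (P.append (Walk.cons hry Walk.nil))
    simp only [wsum_append, wsum_cons, wsum_nil] at this
    linarith
  have t2 : Tight G l r y := by
    intro P
    have := h1 (Walk.cons hxr P)
    simp only [wsum_cons] at this
    linarith
  have t3 : Tight G l x s := by
    intro P
    have := h2 (P.append (Walk.cons hys.symm Walk.nil))
    simp only [wsum_append, wsum_cons, wsum_nil] at this
    linarith
  have t4 : Tight G l s y := by
    intro P
    have := h2 (Walk.cons hsx.symm P)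
    simp only [wsum_cons] at this
    linarith
  have a1 : Arc l c x r := Arc.edge hxr e1 t1
  have a2 : Arc l c r y := Arc.edge hry e2 t2
  have a3 : Arc l c y s := Arc.edge hys e3 t4.symm
  have a4 : Arc l c s x := Arc.edge hsx e4 t3.symm
  have a5 : Arc l c x y := fun P => Arc.two hxr hry hxy.ne e1 e2 P (h1 P)
  have a6 : Arc l c r s := by
    intro P
    by_cases h : wsum l P < l s(r, x) + l s(x, s)
    · exact Arc.two hry hys hrs e2 e3 P (hcon P h)
    · push Not at h
      exact Arc.two hxr.symm hsx.symm hrs (by rw [Sym2.eq_swap]; exact e1)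
        (by rw [Sym2.eq_swap]; exact e4) P h
  have hg : IsGeodesicCycle l c := by
    apply geodesic_of_arcs hcyc
    intro a ha b hb
    rcases (hsupp a).mp ha with rfl | rfl | rfl | rfl <;>
      rcases (hsupp b).mp hb with rfl | rfl | rfl | rfl <;>
    first
    | exact Arc.refl hl c _
    | exact a1
    | exact a2
    | exact a3
    | exact a4
    | exact a5
    | exact a6
    | exact a1.symm
    | exact a2.symm
    | exact a3.symm
    | exact a4.symm
    | exact a5.symm
    | exact a6.symm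
  have hper := (H x c hg).2.1 x ((hsupp x).mpr (Or.inl rfl)) y
    ((hsupp y).mpr (Or.inr (Or.inr (Or.inl rfl)))) hxy
  rw [hc] at hper
  simp [hxr.ne, hry.ne, hys.ne, hsx.ne, hxy.ne, hrs, hxr.ne.symm, hsx.ne.symm, hry.ne.symm,
    hys.ne.symm, hxy.ne.symm] at hper

/-- chordality: an induced cycle is a triangle -/
theorem per_triangle [LinearOrder V]
    (hpe : ∀ v x y : V, x < v → y < v → x ≠ y → G.Adj v x → G.Adj v y → G.Adj x y)
    {u : V} (c : G.Walk u u) (hc : c.IsCycle)
    (hind : ∀ x ∈ c.support, ∀ y ∈ c.support, G.Adj x y → s(x, y) ∈ c.edges) :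
    ∃ (v x y : V) (h1 : G.Adj v x) (h2 : G.Adj x y) (h3 : G.Adj y v) (hv : v ∈ c.support),
      x < v ∧ y < v ∧ c.rotate v hv = Walk.cons h1 (Walk.cons h2 (Walk.cons h3 Walk.nil)) := by
  have hne : c.support.toFinset.Nonempty := ⟨u, by simp⟩
  obtain ⟨v, hv, hmax⟩ := Finset.exists_max_image c.support.toFinset id hne
  have hv' : v ∈ c.support := List.mem_toFinset.mp hv
  have hmax' : ∀ w ∈ c.support, w ≤ v := fun w hw => hmax w (List.mem_toFinset.mpr hw)
  set c' := c.rotate v hv' with hc'
  have hcyc : c'.IsCycle := hc.rotate hv'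
  have hsup : ∀ w, w ∈ c'.support ↔ w ∈ c.support := fun w => by
    rw [hc', Walk.mem_support_rotate_iff]
  have hind' : ∀ x ∈ c'.support, ∀ y ∈ c'.support, G.Adj x y → s(x, y) ∈ c'.edges := by
    intro x hx y hy hxy
    have := hind x ((hsup x).mp hx) y ((hsup y).mp hy) hxy
    exact (Walk.rotate_edges c v hv').mem_iff.mpr this
  have hmax2 : ∀ w ∈ c'.support, w ≤ v := fun w hw => hmax' w ((hsup w).mp hw)
  clear_value c'
  cases c' with
  | nil => exact absurd hcyc (by simp)
  | @cons _ x _ h1 p =>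
    rw [Walk.cons_isCycle_iff] at hcyc
    obtain ⟨hp, hnot⟩ := hcyc
    -- the last edge
    obtain ⟨y, hyv, hyp⟩ : ∃ y, G.Adj v y ∧ s(v, y) ∈ p.edges := by
      cases hpr : p.reverse with
      | nil => exact absurd h1 (G.irrefl)
      | @cons _ y _ h2 q =>
        refine ⟨y, h2, ?_⟩
        rw [← List.mem_reverse, ← Walk.edges_reverse, hpr]
        simp
    have hxy : x ≠ y := by
      rintro rfl
      exact hnot hyp
    have hysup : y ∈ p.support := Walk.snd_mem_support_of_mem_edges p hyp
    have hxs : x ∈ (Walk.cons h1 p).support := by simp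
    have hys : y ∈ (Walk.cons h1 p).support := by
      rw [Walk.support_cons]; exact List.mem_cons_of_mem _ hysup
    have hxv : x < v := lt_of_le_of_ne (hmax2 x hxs) h1.ne.symm
    have hyv' : y < v := lt_of_le_of_ne (hmax2 y hys) hyv.ne.symm
    have hadj : G.Adj x y := hpe v x y hxv hyv' hxy h1 hyv
    have hedge := hind' x hxs y hys hadj
    rw [Walk.edges_cons, List.mem_cons] at hedge
    have hedge2 : s(x, y) ∈ p.edges := by
      rcases hedge with h | h
      · exfalso
        rw [Sym2.eq_iff] at h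
        rcases h with ⟨h, _⟩ | ⟨_, h⟩
        · exact h1.ne h.symm
        · exact hyv.ne h.symm
      · exact h
    cases p with
    | nil => exact absurd h1 (G.irrefl)
    | @cons _ x2 _ h2 r =>
      rw [Walk.cons_isPath_iff] at hp
      have hx2 : x2 = y := by
        rw [Walk.edges_cons, List.mem_cons] at hedge2
        rcases hedge2 with h | h
        · rw [Sym2.eq_iff] at h
          rcases h with ⟨_, h⟩ | ⟨h, h'⟩
          · exact h.symm
          · exact absurd h' hxy.symm
        · exact absurd (Walk.fst_mem_support_of_mem_edges r h) hp.2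
      subst hx2
      have hr : s(v, x2) ∈ r.edges := by
        rw [Walk.edges_cons, List.mem_cons] at hyp
        rcases hyp with h | h
        · exfalso
          rw [Sym2.eq_iff] at h
          rcases h with ⟨h, _⟩ | ⟨h, _⟩
          · exact h1.ne h
          · exact hyv.ne h
        · exact h
      obtain ⟨h', hr'⟩ := cons_path hyv r hp.1 hr
      subst hr'
      exact ⟨v, x, x2, h1, h2, h', hv', hxv, hyv', hc'.symm⟩

end Pool.Agent.V11293.GEO
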