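import Mathlib

set_option autoImplicit false

namespace Pool.Agent.V11293.GEO

open SimpleGraph

section gen
variable {V : Type} {G : SimpleGraph V} {M : Type} [AddCommMonoid M]

/-- the sum of `f` over the edges of a walk (with multiplicity) -/
def wsum (f : Sym2 V → M) {u v : V} (p : G.Walk u v) : M := (p.edges.map f).sum

@[simp] theorem wsum_nil (f : Sym2 V → M) (u : V) : wsum f (Walk.nil : G.Walk u u) = 0 := by
  simp [wsum]

@[simp] theorem wsum_cons (f : Sym2 V → M) {u v w : V} (h : G.Adj u v) (p : G.Walk v w) :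
    wsum f (Walk.cons h p) = f s(u, v) + wsum f p := by
  simp [wsum]

@[simp] theorem wsum_append (f : Sym2 V → M) {u v w : V} (p : G.Walk u v) (q : G.Walk v w) :
    wsum f (p.append q) = wsum f p + wsum f q := by
  simp [wsum]

@[simp] theorem wsum_reverse (f : Sym2 V → M) {u v : V} (p : G.Walk u v) :
    wsum f p.reverse = wsum f p := by
  simp [wsum, List.sum_reverse]

theorem wsum_take_drop [DecidableEq V] (f : Sym2 V → M) {u v w : V} (p : G.Walk u v)
    (h : w ∈ p.support) : wsum f (p.takeUntil w h) + wsum f (p.dropUntil w h) = wsum f p := by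
  rw [← wsum_append, Walk.take_spec]

theorem wsum_rotate [DecidableEq V] (f : Sym2 V → M) {u w : V} (p : G.Walk u u)
    (h : w ∈ p.support) : wsum f (p.rotate w h) = wsum f p := by
  rw [Walk.rotate, wsum_append, add_comm, wsum_take_drop]

end gen

section len
variable {V : Type} {G : SimpleGraph V} {l : Sym2 V → ℝ}

theorem len_nonneg (hl : ∀ e, 0 < l e) {u v : V} (p : G.Walk u v) : 0 ≤ wsum l p := by
  induction p with
  | nil => simp
  | @cons a b c h p ih => rw [wsum_cons]; linarith [hl s(a, b)]

theorem len_pos (hl : ∀ e, 0 < l e) {u v : V} (p : G.Walk u v) (hp : ¬ p.Nil) : 0 < wsum l p := by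
  cases p with
  | nil => simp at hp
  | @cons _ b _ h p => rw [wsum_cons]; linarith [hl s(u, b), len_nonneg hl p]

theorem exists_min {α : Type} [Nonempty α] [Fintype V] [DecidableEq V] (hl : ∀ e, 0 < l e)
    (m : α → Sym2 V → ℕ) :
    ∃ a, ∀ b, ∑ e, (m a e : ℝ) * l e ≤ ∑ e, (m b e : ℝ) * l e := by
  have h1 : (Set.range m).IsPWO := Set.isPWO_of_wellQuasiOrderedLE _
  have h2 : Monotone (fun k : Sym2 V → ℕ => ∑ e, (k e : ℝ) * l e) := by
    intro k k' hk
    apply Finset.sum_le_sum
    intro e _
    apply mul_le_mul_of_nonneg_right _ (hl e).le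
    exact_mod_cast hk e
  have h3 := (h1.image_of_monotone h2).isWF
  have h4 : ((fun k : Sym2 V → ℕ => ∑ e, (k e : ℝ) * l e) '' Set.range m).Nonempty :=
    (Set.range_nonempty m).image _
  obtain ⟨k, ⟨a, rfl⟩, hk⟩ := h3.min_mem h4
  refine ⟨a, fun b => ?_⟩
  have h5 := h3.min_le h4 (Set.mem_image_of_mem _ (Set.mem_range_self b))
  rw [← hk] at h5
  exact h5

theorem wsum_eq_count [Fintype V] [DecidableEq V] {u v : V} (p : G.Walk u v) :
    wsum l p = ∑ e, (p.edges.count e : ℝ) * l e := by
  induction p with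
  | nil => simp
  | @cons a b c h p ih =>
    rw [wsum_cons, ih]
    have : ∀ e, (((Walk.cons h p).edges.count e : ℕ) : ℝ) * l e =
        (if e = s(a, b) then l e else 0) + (p.edges.count e : ℝ) * l e := by
      intro e
      rw [Walk.edges_cons, List.count_cons]
      by_cases he : e = s(a, b)
      · subst he
        simp; ring
      · have : ¬ (s(a, b) = e) := fun h => he h.symm
        simp [he, this]
    rw [Finset.sum_congr rfl fun e _ => this e, Finset.sum_add_distrib]
    simp

/-- there is a shortest walk in every nonempty family of walks -/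
theorem exists_min_walk [Fintype V] [DecidableEq V] (hl : ∀ e, 0 < l e)
    (P : ∀ u v : V, G.Walk u v → Prop) (hP : ∃ u v, ∃ p : G.Walk u v, P u v p) :
    ∃ u v, ∃ p : G.Walk u v, P u v p ∧ ∀ u' v', ∀ q : G.Walk u' v', P u' v' q →
      wsum l p ≤ wsum l q := by
  let α := {x : Σ u : V, Σ v : V, G.Walk u v // P x.1 x.2.1 x.2.2}
  obtain ⟨u0, v0, p0, h0⟩ := hP
  have : Nonempty α := ⟨⟨⟨u0, v0, p0⟩, h0⟩⟩
  obtain ⟨a, ha⟩ := exists_min (α := α) hl (fun a e => a.1.2.2.edges.count e)
  refine ⟨a.1.1, a.1.2.1, a.1.2.2, a.2, ?_⟩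
  intro u' v' q hq
  have := ha ⟨⟨u', v', q⟩, hq⟩
  rw [← wsum_eq_count, ← wsum_eq_count] at this
  exact this

/-- every walk contains a path which is not longer -/
theorem exists_path [DecidableEq V] (hl : ∀ e, 0 < l e) {u v : V} (p : G.Walk u v) :
    ∃ q : G.Walk u v, q.IsPath ∧ (∀ e ∈ q.edges, e ∈ p.edges) ∧ wsum l q ≤ wsum l p := by
  induction p with
  | nil => exact ⟨Walk.nil, Walk.IsPath.nil, fun e he => he, le_rfl⟩
  | @cons a b c h p ih =>
    obtain ⟨q, hq1, hq2, hq3⟩ := ih
    by_cases ha : a ∈ q.support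
    · refine ⟨q.dropUntil a ha, hq1.dropUntil ha, ?_, ?_⟩
      · intro e he
        rw [Walk.edges_cons]
        exact List.mem_cons_of_mem _ (hq2 e (Walk.edges_dropUntil_subset_edges _ ha he))
      · have h1 := wsum_take_drop l q ha
        have h2 := len_nonneg hl (q.takeUntil a ha)
        rw [wsum_cons]
        linarith [hl s(a, b)]
    · refine ⟨Walk.cons h q, hq1.cons ha, ?_, ?_⟩
      · intro e he
        rw [Walk.edges_cons, List.mem_cons] at he ⊢
        rcases he with he | he
        · exact Or.inl he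
        · exact Or.inr (hq2 e he)
      · rw [wsum_cons, wsum_cons]
        linarith

/-- a walk that is not a path contains a nontrivial closed walk -/
theorem split_of_not_path [DecidableEq V] {u v : V} (p : G.Walk u v) (hp : ¬ p.IsPath) :
    ∃ (x : V) (p1 : G.Walk u x) (q : G.Walk x x) (p2 : G.Walk x v),
      p = p1.append (q.append p2) ∧ ¬ q.Nil := by
  induction p with
  | nil => exact absurd Walk.IsPath.nil hp
  | @cons a b c h p ih =>
    by_cases ha : a ∈ p.support
    · refine ⟨a, Walk.nil, Walk.cons h (p.takeUntil a ha), p.dropUntil a ha, ?_, ?_⟩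
      · rw [Walk.nil_append, Walk.cons_append, Walk.take_spec]
      · simp
    · have hp' : ¬ p.IsPath := fun hh => hp (hh.cons ha)
      obtain ⟨x, p1, q, p2, h1, h2⟩ := ih hp'
      exact ⟨x, Walk.cons h p1, q, p2, by rw [Walk.cons_append, ← h1], h2⟩

/-- cons of an edge to a path: either a cycle, or the walk goes back and forth -/
theorem cons_path {u v : V} (h : G.Adj u v) (p : G.Walk v u) (hp : p.IsPath)
    (he : s(u, v) ∈ p.edges) : ∃ h' : G.Adj v u, p = Walk.cons h' Walk.nil := by
  cases p with
  | nil => exact absurd h (G.irrefl)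
  | @cons _ w _ h' p' =>
    rw [Walk.cons_isPath_iff] at hp
    rw [Walk.edges_cons, List.mem_cons] at he
    rcases he with he | he
    · have hw : w = u := by
        rw [Sym2.eq_iff] at he
        rcases he with ⟨h1, h2⟩ | ⟨h1, h2⟩
        · exact absurd h1 h.ne
        · exact h1.symm
      subst hw
      have : p' = Walk.nil := Walk.eq_nil_iff_nil.mpr (Walk.isPath_iff_nil.mp hp.1)
      subst this
      exact ⟨h', rfl⟩
    · exact absurd (Walk.snd_mem_support_of_mem_edges p' he) hp.2

end len

end Pool.Agent.V11293.GEO
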